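import Mathlib
import Pool.Agent.Helper76_PDT.Fnl

/-!
# PDT (helper49): NP-hardness, restricted to the sequences with sum `6 n - 12`
-/

set_option autoImplicit false

namespace Pool.Agent.PDT.H49

open Pool.Agent.PDN Pool.Agent.PDM Pool.Agent.PDT Pool.Agent.Common_CookLevin
  Pool.Agent.Helper32_HCK Turing

theorem seqF_sum (okt : OktStmt) (lst : LstStmt) (siz : SizStmt) (F : CNF) :
    (seqF F).sum + 12 = 6 * (seqF F).length := by
  unfold seqF
  have hok := okt F ((encodeCNF F).length + 1)
  have h4 := (siz _ (toIns (2 * (((encodeCNF F).length + 1) * ((encodeCNF F).length + 1)))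
    (trips F ((encodeCNF F).length + 1)))).1
  rw [← lst _ _ hok, Multiset.sum_coe, Multiset.coe_card] at h4
  exact h4

/-- every language in NP is reducible to the planar degree sequences; all sequences which occur
have sum `6 n - 12` -/
theorem final (okt : OktStmt) (sou : SouStmt) (com : ComStmt) (mat : MatStmt) (lst : LstStmt)
    (tim : TimStmt) (ne : Ne3Stmt) (su : Su3Stmt) (siz : SizStmt) :
    ∀ L : Set (List Bool), InNP (languageProblem L) →
      ∃ f : List Bool → List ℕ,
        Nonempty (TM2ComputableInPolyTime (id : List Bool → List Bool) encSeq f) ∧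
        ∀ w, (f w).sum + 12 = 6 * (f w).length ∧ (w ∈ L ↔ Realizable (f w : Multiset ℕ)) := by
  intro L hL
  obtain ⟨g, ⟨hg⟩, hg'⟩ := sat_hard L hL
  obtain ⟨ht⟩ := tim
  refine ⟨seqF ∘ g, Pool.Agent.Helper32_Poly.TM2ComputableInPolyTime.comp hg ht, fun w => ⟨seqF_sum okt lst siz (g w), ?_⟩⟩
  exact (hg' w).trans (H76.seqF_iff okt sou com mat lst ne su (g w))

end Pool.Agent.PDT.H49
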